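import Pool.Agent.Lib.MP_b92640_nt.Seq

set_option autoImplicit false

open Finset Filter Topology
open scoped Pointwise

namespace Pool.Agent.Results.MP_b92640_nt.AllBasesAtOnce

open Pool.Agent.Lib.MP_b92640_nt

lemma two_mul_le {j : ℕ} (hj : 3 ≤ j) : 2 * j ≤ 2 ^ j := by
  induction j, hj using Nat.le_induction with
  | base => norm_num
  | succ j hj ih => rw [pow_succ]; omega

lemma geom4 (N : ℕ) : ∑ j ∈ Finset.range (N + 1), (4 : ℝ) ^ j ≤ 2 * 4 ^ N := by
  induction N with
  | zero => simp
  | succ N ih =>
    rw [Finset.sum_range_succ, pow_succ]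
    have : (0 : ℝ) ≤ 4 ^ N := by positivity
    nlinarith

open Classical in
lemma count_bound (n K : ℕ) (hK : 1 ≤ K) :
    (((Finset.Ioc 0 n).filter (· ∈ seqA id 3)).card : ℝ) ≤ 2 * 4 ^ K + n / K := by
  have hK' : (0 : ℝ) < K := by exact_mod_cast hK
  have hblk0 : ∀ j, 1 ≤ j → ((blk id j).card : ℝ) ≤ 4 ^ j := by
    intro j hj
    have h1 : (blk id j).card * j ≤ 4 ^ j := blk_card (k := id) (j := j)
    have h2 : (blk id j).card ≤ (blk id j).card * j := Nat.le_mul_of_pos_right _ hj
    exact_mod_cast h2.trans h1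
  have hblk1 : ∀ j, K ≤ j → ((blk id j).card : ℝ) ≤ 4 ^ j / K := by
    intro j hj
    rw [le_div_iff₀ hK']
    have h1 : (blk id j).card * j ≤ 4 ^ j := blk_card (k := id) (j := j)
    have h2 : (blk id j).card * K ≤ (blk id j).card * j := Nat.mul_le_mul_left _ hj
    exact_mod_cast h2.trans h1
  have hc := seqA_count id 3 n
  have hc' : (((Finset.Ioc 0 n).filter (· ∈ seqA id 3)).card : ℝ) ≤
      ∑ j ∈ (Finset.range n).filter (fun j => 3 ≤ j ∧ 8 * 4 ^ j ≤ n), ((blk id j).card : ℝ) := by
    exact_mod_cast hc
  refine hc'.trans ?_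
  rcases Finset.eq_empty_or_nonempty
    ((Finset.range n).filter (fun j => 3 ≤ j ∧ 8 * 4 ^ j ≤ n)) with he | hne
  · rw [he]; simp; positivity
  · set F := (Finset.range n).filter (fun j => 3 ≤ j ∧ 8 * 4 ^ j ≤ n) with hF
    set N := F.max' hne with hN
    have hNF : N ∈ F := Finset.max'_mem _ _
    rw [hF, mem_filter] at hNF
    have hsub : F ⊆ Finset.range (N + 1) := by
      intro j hj
      rw [mem_range]
      have := Finset.le_max' F j hj
      omega
    have hterm : ∀ j ∈ F, ((blk id j).card : ℝ) ≤
        (if j < K + 1 then (4 : ℝ) ^ j else 0) + 4 ^ j / K := by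
      intro j hj
      rw [hF, mem_filter] at hj
      by_cases hjK : j < K + 1
      · rw [if_pos hjK]
        have := hblk0 j (by omega)
        have h0 : (0 : ℝ) ≤ 4 ^ j / K := by positivity
        linarith
      · rw [if_neg hjK]
        have := hblk1 j (by omega)
        linarith
    calc ∑ j ∈ F, ((blk id j).card : ℝ)
        ≤ ∑ j ∈ F, ((if j < K + 1 then (4 : ℝ) ^ j else 0) + 4 ^ j / K) :=
          Finset.sum_le_sum hterm
      _ = ∑ j ∈ F, (if j < K + 1 then (4 : ℝ) ^ j else 0) + ∑ j ∈ F, (4 : ℝ) ^ j / K :=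
          Finset.sum_add_distrib
      _ ≤ 2 * 4 ^ K + n / K := by
          apply add_le_add
          · rw [← Finset.sum_filter]
            refine le_trans (Finset.sum_le_sum_of_subset_of_nonneg
              (t := Finset.range (K + 1)) ?_ ?_) (geom4 K)
            · intro j hj
              rw [mem_filter] at hj
              rw [mem_range]; exact hj.2
            · intro j _ _; positivity
          · have h1 : ∑ j ∈ F, (4 : ℝ) ^ j / K ≤ ∑ j ∈ Finset.range (N + 1), (4 : ℝ) ^ j / K := by
              apply Finset.sum_le_sum_of_subset_of_nonneg hsub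
              intro j _ _; positivity
            have h2 : ∑ j ∈ Finset.range (N + 1), (4 : ℝ) ^ j / K ≤ 2 * 4 ^ N / K := by
              rw [← Finset.sum_div]
              gcongr
              exact geom4 N
            have h3 : (2 : ℝ) * 4 ^ N ≤ n := by
              have h4 : 8 * 4 ^ N ≤ n := hNF.2.2
              have h5 : 2 * 4 ^ N ≤ n := by omega
              exact_mod_cast h5
            refine h1.trans (h2.trans ?_)
            gcongr

open Classical in
/-- There is a sequence `A` of zero asymptotic density, different from the primes, such that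
`σ (A + B) > 0` for every basis `B` of every finite order. -/
theorem result :
    ∃ A : Set ℕ, 0 ∈ A ∧ A ≠ {0, 1} ∪ {p | p.Prime} ∧
      Tendsto (fun n : ℕ => (((Finset.Ioc 0 n).filter (· ∈ A)).card : ℝ) / n) atTop (𝓝 0) ∧
      ∀ (h : ℕ) (B : Set ℕ), IsBasisOfOrder h B → 0 < schnirelmannDensity (A + B) := by
  refine ⟨seqA id 3, zero_mem, seqA_ne, ?_, ?_⟩
  · rw [Metric.tendsto_atTop]
    intro ε hε
    obtain ⟨K, hK⟩ := exists_nat_gt (2 / ε)
    have hK0 : (0 : ℝ) < K := lt_trans (by positivity) hK
    have hK1 : 1 ≤ K := by exact_mod_cast hK0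
    obtain ⟨N, hN⟩ := exists_nat_gt (2 * (2 * 4 ^ K) / ε)
    refine ⟨N + 1, fun n hn => ?_⟩
    have hn0 : (0 : ℝ) < n := by
      have : 0 < n := by omega
      exact_mod_cast this
    have hnN : (N : ℝ) < n := by
      have : N < n := by omega
      exact_mod_cast this
    rw [Real.dist_eq, sub_zero, abs_of_nonneg (by positivity), div_lt_iff₀ hn0]
    refine lt_of_le_of_lt (count_bound n K hK1) ?_
    have h1 : (2 * 4 ^ K : ℝ) < ε / 2 * n := by
      have h2 : 2 * (2 * 4 ^ K) / ε < (n : ℝ) := hN.trans hnN
      rw [div_lt_iff₀ hε] at h2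
      linarith
    have h3 : (n : ℝ) / K < ε / 2 * n := by
      rw [div_lt_iff₀ hK0]
      rw [div_lt_iff₀ hε] at hK
      nlinarith
    linarith
  · intro h B hB
    -- the order is positive
    have hh : 1 ≤ h := by
      rcases Nat.eq_zero_or_pos h with h0 | h0
      · subst h0
        obtain ⟨b, _, hs⟩ := hB.2 1
        simp at hs
      · exact h0
    have h1B : 1 ∈ B := by
      obtain ⟨b, hb, hs⟩ := hB.2 1
      have : ∃ i, b i = 1 := by
        by_contra hcon
        push Not at hcon
        have hle : ∀ i, b i ≤ 1 := fun i => by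
          rw [← hs]; exact Finset.single_le_sum (fun _ _ => Nat.zero_le _) (mem_univ i)
        have hz : ∀ i, b i = 0 := fun i => by have := hle i; have := hcon i; omega
        simp [hz] at hs
      obtain ⟨i, hi⟩ := this
      rw [← hi]; exact hb i
    -- eventually j ^ h ≤ 4 ^ j
    have hev : ∀ᶠ j : ℕ in atTop, j ^ h ≤ 4 ^ j := by
      have h2 := tendsto_pow_const_div_const_pow_of_one_lt h (show (1 : ℝ) < 4 by norm_num)
      have h3 := h2.eventually (gt_mem_nhds (show (0 : ℝ) < 1 by norm_num))
      filter_upwards [h3] with j hj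
      rw [div_lt_one (by positivity)] at hj
      exact_mod_cast hj.le
    obtain ⟨J2, hJ2⟩ := eventually_atTop.1 hev
    have hd := density (k := id) (J := 3) (J1 := max 3 J2) (B := B) (le_max_left _ _)
      (le_trans (by norm_num) (le_max_left 3 J2))
      (fun j hj => by
        have : 3 ≤ j := le_trans (le_max_left _ _) hj
        simp only [id]; omega)
      (fun j hj => two_mul_le (le_trans (le_max_left _ _) hj))
      (fun j hj => by
        have h4 : j ^ h ≤ 4 ^ j := hJ2 j (le_trans (le_max_right _ _) hj)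
        have h5 := basis_card hB (4 ^ j)
        simp only [id]
        by_contra hlt
        push Not at hlt
        have h6 := Nat.pow_lt_pow_left hlt (show h ≠ 0 by omega)
        omega) h1B
    refine lt_of_lt_of_le ?_ hd
    positivity

end Pool.Agent.Results.MP_b92640_nt.AllBasesAtOnce
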