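import Pool.Agent.Lib.MP_b92640_nt.Seq

set_option autoImplicit false

open Finset Filter Topology
open scoped Pointwise

namespace Pool.Agent.Results.MP_b92640_nt.SharpEveryOrder

open Pool.Agent.Lib.MP_b92640_nt

/-- the translation parameter used for bases of order h -/
def kk (h : ℕ) (j : ℕ) : ℕ := 2 ^ (2 * (j - 1) / h)

lemma kk_pos (h j : ℕ) : 1 ≤ kk h j := Nat.one_le_two_pow

lemma kk_le {h j : ℕ} (hh : 2 ≤ h) (hj : 2 ≤ j) : 2 * kk h j ≤ 2 ^ j := by
  unfold kk
  rw [← pow_succ']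
  apply Nat.pow_le_pow_right (by norm_num)
  have : 2 * (j - 1) / h ≤ 2 * (j - 1) / 2 := Nat.div_le_div_left hh (by norm_num)
  have h2 : 2 * (j - 1) / 2 = j - 1 := by omega
  omega

lemma kk_basis {h j x : ℕ} (hh : 2 ≤ h) (hx : 4 ^ j ≤ x ^ h) : kk h j ≤ x := by
  by_contra hlt
  push Not at hlt
  have h1 : x ^ h < kk h j ^ h := Nat.pow_lt_pow_left hlt (by omega)
  have h2 : kk h j ^ h ≤ 4 ^ j := by
    unfold kk
    rw [← pow_mul]
    have h3 : 2 * (j - 1) / h * h ≤ 2 * (j - 1) := Nat.div_mul_le_self _ _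
    calc 2 ^ (2 * (j - 1) / h * h) ≤ 2 ^ (2 * j) := Nat.pow_le_pow_right (by norm_num) (by omega)
      _ = 4 ^ j := by rw [pow_mul]; norm_num
  omega

/-- real lower bound for kk -/
lemma kk_real {h j : ℕ} (hh : 2 ≤ h) (hj : 1 ≤ j) :
    (4 : ℝ) ^ ((j : ℝ) * (1 / h)) ≤ 4 * kk h j := by
  have hh0 : (0 : ℝ) < h := by positivity
  have h1 : ((2 * (j - 1) / h : ℕ) : ℝ) ≥ (2 * ((j : ℝ) - 1)) / h - 1 := by
    have h3 : 2 * (j - 1) < h * (2 * (j - 1) / h + 1) := Nat.lt_mul_div_succ _ (by omega)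
    have h4 : ((2 * (j - 1) : ℕ) : ℝ) < ((h * (2 * (j - 1) / h + 1) : ℕ) : ℝ) := by
      exact_mod_cast h3
    push_cast [Nat.cast_sub hj] at h4
    have h5 : (2 * ((j : ℝ) - 1)) / h < ((2 * (j - 1) / h : ℕ) : ℝ) + 1 := by
      rw [div_lt_iff₀ hh0]; linarith
    linarith
  have h2 : (kk h j : ℝ) = (2 : ℝ) ^ (((2 * (j - 1) / h : ℕ) : ℝ)) := by
    unfold kk; push_cast; rw [Real.rpow_natCast]
  rw [h2]
  have e4 : (4 : ℝ) = (2 : ℝ) ^ (2 : ℝ) := by norm_num
  have h6 : (4 : ℝ) ^ ((j : ℝ) * (1 / h)) = (2 : ℝ) ^ ((2 : ℝ) * ((j : ℝ) * (1 / h))) := by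
    rw [Real.rpow_mul (by norm_num : (0 : ℝ) ≤ 2), ← e4]
  rw [h6]
  nth_rewrite 1 [e4]
  rw [← Real.rpow_add (by norm_num : (0 : ℝ) < 2)]
  apply Real.rpow_le_rpow_of_exponent_le (by norm_num)
  have h7 : (2 : ℝ) / h ≤ 1 := by
    rw [div_le_one hh0]; exact_mod_cast hh
  have h8 : (2 * ((j : ℝ) - 1)) / h = (2 : ℝ) * ((j : ℝ) * (1 / h)) - 2 / h := by ring
  linarith

/-- geometric sums with ratio at least two -/
lemma geom_le {r : ℝ} (hr : 2 ≤ r) (N : ℕ) :
    ∑ j ∈ Finset.range (N + 1), r ^ j ≤ 2 * r ^ N := by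
  induction N with
  | zero => simp
  | succ N ih =>
    rw [Finset.sum_range_succ, pow_succ]
    have : 0 ≤ r ^ N := by positivity
    nlinarith

lemma rpow_cast {r : ℝ} (hr : 0 ≤ r) (j : ℕ) (x : ℝ) : r ^ ((j : ℝ) * x) = (r ^ x) ^ j := by
  rw [mul_comm, Real.rpow_mul hr, Real.rpow_natCast]

open Classical in
lemma count_bound {h : ℕ} (hh : 2 ≤ h) (n : ℕ) :
    (((Finset.Ioc 0 n).filter (· ∈ seqA (kk h) 2)).card : ℝ) ≤
      8 * (n : ℝ) ^ (1 - 1 / (h : ℝ)) := by
  have hh0 : (0 : ℝ) < h := by positivity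
  have hα : (1 : ℝ) / 2 ≤ 1 - 1 / (h : ℝ) := by
    have : (1 : ℝ) / h ≤ 1 / 2 := by
      apply one_div_le_one_div_of_le (by norm_num); exact_mod_cast hh
    linarith
  set α : ℝ := 1 - 1 / (h : ℝ) with hαdef
  set r : ℝ := (4 : ℝ) ^ α with hr
  have hr2 : 2 ≤ r := by
    have : (2 : ℝ) = (4 : ℝ) ^ ((1 : ℝ) / 2) := by
      rw [show (4 : ℝ) = 2 ^ (2 : ℝ) by norm_num, ← Real.rpow_mul (by norm_num)]
      norm_num
    rw [this, hr]
    exact Real.rpow_le_rpow_of_exponent_le (by norm_num) hα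
  have hblk : ∀ j, 1 ≤ j → ((blk (kk h) j).card : ℝ) ≤ 4 * r ^ j := by
    intro j hj
    have h1 : ((blk (kk h) j).card : ℝ) * kk h j ≤ 4 ^ j := by
      exact_mod_cast (blk_card (k := kk h) (j := j))
    have h2 := kk_real hh hj
    have h3 : (0 : ℝ) < (4 : ℝ) ^ ((j : ℝ) * (1 / h)) := by positivity
    have h4 : r ^ j * (4 : ℝ) ^ ((j : ℝ) * (1 / h)) = 4 ^ j := by
      rw [hr, ← rpow_cast (by norm_num), ← Real.rpow_add (by norm_num), hαdef,
        ← Real.rpow_natCast]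
      congr 1
      ring
    have h5 : ((blk (kk h) j).card : ℝ) * (4 : ℝ) ^ ((j : ℝ) * (1 / h)) ≤
        (4 * r ^ j) * (4 : ℝ) ^ ((j : ℝ) * (1 / h)) := by
      calc ((blk (kk h) j).card : ℝ) * (4 : ℝ) ^ ((j : ℝ) * (1 / h))
          ≤ ((blk (kk h) j).card : ℝ) * (4 * kk h j) := by gcongr
        _ = 4 * (((blk (kk h) j).card : ℝ) * kk h j) := by ring
        _ ≤ 4 * 4 ^ j := by gcongr
        _ = (4 * r ^ j) * (4 : ℝ) ^ ((j : ℝ) * (1 / h)) := by rw [mul_assoc, h4]
    exact le_of_mul_le_mul_right h5 h3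
  have hc := seqA_count (kk h) 2 n
  have hc' : (((Finset.Ioc 0 n).filter (· ∈ seqA (kk h) 2)).card : ℝ) ≤
      ∑ j ∈ (Finset.range n).filter (fun j => 2 ≤ j ∧ 8 * 4 ^ j ≤ n), ((blk (kk h) j).card : ℝ) := by
    exact_mod_cast hc
  refine hc'.trans ?_
  rcases Finset.eq_empty_or_nonempty
    ((Finset.range n).filter (fun j => 2 ≤ j ∧ 8 * 4 ^ j ≤ n)) with he | hne
  · rw [he]; simp; positivity
  · -- the largest index
    set F := (Finset.range n).filter (fun j => 2 ≤ j ∧ 8 * 4 ^ j ≤ n) with hF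
    set N := F.max' hne with hN
    have hNF : N ∈ F := Finset.max'_mem _ _
    rw [hF, mem_filter] at hNF
    have hsub : F ⊆ Finset.range (N + 1) := by
      intro j hj
      rw [mem_range]
      have := Finset.le_max' F j hj
      omega
    calc ∑ j ∈ F, ((blk (kk h) j).card : ℝ) ≤ ∑ j ∈ F, 4 * r ^ j := by
          apply Finset.sum_le_sum
          intro j hj
          rw [hF, mem_filter] at hj
          exact hblk j (by omega)
      _ ≤ ∑ j ∈ Finset.range (N + 1), 4 * r ^ j := by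
          apply Finset.sum_le_sum_of_subset_of_nonneg hsub
          intro j _ _
          positivity
      _ = 4 * ∑ j ∈ Finset.range (N + 1), r ^ j := by rw [Finset.mul_sum]
      _ ≤ 4 * (2 * r ^ N) := by gcongr; exact geom_le hr2 N
      _ = 8 * r ^ N := by ring
      _ ≤ 8 * (n : ℝ) ^ α := by
          gcongr
          rw [hr, ← Real.rpow_natCast, ← Real.rpow_mul (by norm_num), mul_comm,
            Real.rpow_mul (by norm_num), Real.rpow_natCast]
          apply Real.rpow_le_rpow (by positivity) _ (by linarith)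
          have : 8 * 4 ^ N ≤ n := hNF.2.2
          have h10 : 4 ^ N ≤ n := by omega
          exact_mod_cast h10

open Classical in
/-- For every order `h ≥ 2` there is a sequence `A`, different from the primes, with counting
function at most `8 n ^ (1 - 1 / h)`, hence of zero asymptotic density, such that every basis `B`
of order `h` satisfies `σ (A + B) ≥ 1 / 544`. -/
theorem result (h : ℕ) (hh : 2 ≤ h) :
    ∃ A : Set ℕ, 0 ∈ A ∧ A ≠ {0, 1} ∪ {p | p.Prime} ∧
      Tendsto (fun n : ℕ => (((Finset.Ioc 0 n).filter (· ∈ A)).card : ℝ) / n) atTop (𝓝 0) ∧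
      (∀ n : ℕ, (((Finset.Ioc 0 n).filter (· ∈ A)).card : ℝ) ≤
        8 * (n : ℝ) ^ (1 - 1 / (h : ℝ))) ∧
      ∀ B : Set ℕ, IsBasisOfOrder h B → 1 / 544 ≤ schnirelmannDensity (A + B) := by
  have hh0 : (0 : ℝ) < h := by positivity
  refine ⟨seqA (kk h) 2, zero_mem, seqA_ne, ?_, fun n => count_bound hh n, ?_⟩
  · have hlim : Tendsto (fun n : ℕ => 8 * (n : ℝ) ^ (-(1 / (h : ℝ)))) atTop (𝓝 0) := by
      have h1 : Tendsto (fun x : ℝ => x ^ (-(1 / (h : ℝ)))) atTop (𝓝 0) :=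
        tendsto_rpow_neg_atTop (by positivity)
      have h2 := (h1.comp tendsto_natCast_atTop_atTop).const_mul 8
      simpa using h2
    refine squeeze_zero' (Eventually.of_forall fun n => by positivity) ?_ hlim
    filter_upwards [eventually_gt_atTop 0] with n hn
    have hn' : (0 : ℝ) < n := by exact_mod_cast hn
    rw [div_le_iff₀ hn']
    refine (count_bound hh n).trans (le_of_eq ?_)
    rw [mul_assoc]
    congr 1
    nth_rewrite 3 [← Real.rpow_one (n : ℝ)]
    rw [← Real.rpow_add hn']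
    congr 1
    ring
  · intro B hB
    have h1B : 1 ∈ B := by
      obtain ⟨b, hb, hs⟩ := hB.2 1
      have : ∃ i, b i = 1 := by
        by_contra hcon
        push Not at hcon
        have hle : ∀ i, b i ≤ 1 := fun i => by
          rw [← hs]; exact Finset.single_le_sum (fun _ _ => Nat.zero_le _) (mem_univ i)
        have hz : ∀ i, b i = 0 := fun i => by have := hle i; have := hcon i; omega
        simp [hz] at hs
      obtain ⟨i, hi⟩ := this
      rw [← hi]; exact hb i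
    have hd := density (k := kk h) (J := 2) (J1 := 2) (B := B) le_rfl le_rfl
      (fun j _ => kk_pos h j) (fun j hj => kk_le hh hj)
      (fun j hj => kk_basis hh (basis_card hB (4 ^ j))) h1B
    refine le_trans ?_ hd
    norm_num

end Pool.Agent.Results.MP_b92640_nt.SharpEveryOrder
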